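import Pool.Agent.H46.EXC.Stmts
import Pool.Agent.H10.FEX.Stmts
import Pool.Agent.H98.ABCR.MainA

/-!
# EXC, row CNT: the number of integers of bounded radical with exponents in a small set
-/

set_option autoImplicit false

namespace Pool.EXC

open Finset Pool.Agent.H98.ABCR Pool.SHA Pool.ABY Pool.VIO

theorem cnt_fib (E : Finset ℕ) (r : ℕ) (S : Finset ℕ)
    (hS : ∀ n ∈ S, 0 < n ∧ rad n = r ∧ ∀ p ∈ n.primeFactors, n.factorization p ∈ E) :
    S.card ≤ E.card ^ om r := by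
  classical
  have h1 : (r.primeFactors.pi (fun _ => E)).card = E.card ^ om r := by
    rw [Finset.card_pi, Finset.prod_const]
    rfl
  rw [← h1]
  have hpf : ∀ n ∈ S, n.primeFactors = r.primeFactors := by
    intro n hn
    rw [← primeFactors_rad n, (hS n hn).2.1]
  refine Finset.card_le_card_of_injOn (fun n p _ => n.factorization p) ?_ ?_
  · intro n hn
    rw [Finset.mem_coe] at hn
    rw [Finset.mem_coe, Finset.mem_pi]
    intro p hp
    rw [← hpf n hn] at hp
    exact (hS n hn).2.2 p hp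
  · intro n hn m hm h
    rw [Finset.mem_coe] at hn hm
    refine Nat.eq_of_factorization_eq (hS n hn).1.ne' (hS m hm).1.ne' (fun p => ?_)
    by_cases hp : p ∈ r.primeFactors
    · exact congrFun (congrFun h p) hp
    · have h2 : p ∉ n.primeFactors := by rw [hpf n hn]; exact hp
      have h3 : p ∉ m.primeFactors := by rw [hpf m hm]; exact hp
      rw [← Nat.support_factorization, Finsupp.notMem_support_iff] at h2 h3
      rw [h2, h3]

theorem cnt_thm (hO : Pool.FEX.S_OMB) : S_CNT := by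
  classical
  intro L ε hε
  obtain ⟨C, hC1, hC⟩ := hO (max (L : ℝ) 1) ε (le_max_right _ _) hε
  refine ⟨C, hC1, ?_⟩
  intro q Z E hZ hE
  have hZ0 : (0 : ℝ) ≤ Z := by linarith
  have hmem : ∀ n ∈ Cls q Z E, 0 < n ∧ (rad n : ℝ) ≤ Z ∧
      ∀ p ∈ n.primeFactors, n.factorization p ∈ E := by
    intro n hn
    unfold Cls at hn
    rw [Finset.mem_filter] at hn
    exact ⟨hn.2.1, hn.2.2.2.1, hn.2.2.2.2⟩
  have hrad : ∀ n ∈ Cls q Z E, rad n ∈ Finset.Icc 1 ⌊Z⌋₊ := by
    intro n hn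
    rw [Finset.mem_Icc]
    refine ⟨?_, Nat.le_floor (hmem n hn).2.1⟩
    unfold rad
    exact Finset.prod_pos (fun p hp => (Nat.prime_of_mem_primeFactors hp).pos)
  have h1 : (Cls q Z E).card =
      ∑ r ∈ Finset.Icc 1 ⌊Z⌋₊, ((Cls q Z E).filter (fun n => rad n = r)).card :=
    Finset.card_eq_sum_card_fiberwise (f := rad) hrad
  have h2 : ∀ r ∈ Finset.Icc 1 ⌊Z⌋₊,
      ((((Cls q Z E).filter (fun n => rad n = r)).card : ℕ) : ℝ) ≤ C * Z ^ ε := by
    intro r hr
    rw [Finset.mem_Icc] at hr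
    have h3 := cnt_fib E r ((Cls q Z E).filter (fun n => rad n = r)) (by
      intro n hn
      rw [Finset.mem_filter] at hn
      exact ⟨(hmem n hn.1).1, hn.2, (hmem n hn.1).2.2⟩)
    have h4 : ((((Cls q Z E).filter (fun n => rad n = r)).card : ℕ) : ℝ) ≤
        (E.card : ℝ) ^ om r := by exact_mod_cast h3
    have h5 : (E.card : ℝ) ≤ max (L : ℝ) 1 :=
      le_trans (by exact_mod_cast hE) (le_max_left _ _)
    have h6 : (r : ℝ) ≤ Z := (Nat.le_floor_iff hZ0).mp hr.2
    calc ((((Cls q Z E).filter (fun n => rad n = r)).card : ℕ) : ℝ) ≤ (E.card : ℝ) ^ om r := h4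
      _ ≤ (max (L : ℝ) 1) ^ om r := pow_le_pow_left₀ (by positivity) h5 _
      _ ≤ (max (L : ℝ) 1) ^ (om r + 1) :=
        pow_le_pow_right₀ (le_max_right _ _) (Nat.le_succ _)
      _ ≤ C * (r : ℝ) ^ ε := hC r hr.1
      _ ≤ C * Z ^ ε := by
        have : (r : ℝ) ^ ε ≤ Z ^ ε := Real.rpow_le_rpow (by positivity) h6 hε.le
        have hC0 : 0 ≤ C := by linarith
        exact mul_le_mul_of_nonneg_left this hC0
  calc ((Cls q Z E).card : ℝ) =
      ∑ r ∈ Finset.Icc 1 ⌊Z⌋₊, (((Cls q Z E).filter (fun n => rad n = r)).card : ℝ) := by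
        rw [h1]
        push_cast
        rfl
    _ ≤ ∑ r ∈ Finset.Icc 1 ⌊Z⌋₊, C * Z ^ ε := Finset.sum_le_sum h2
    _ = (⌊Z⌋₊ : ℝ) * (C * Z ^ ε) := by
        rw [Finset.sum_const, Nat.card_Icc, nsmul_eq_mul, Nat.add_sub_cancel]
    _ ≤ Z * (C * Z ^ ε) := by
        have h7 : (⌊Z⌋₊ : ℝ) ≤ Z := Nat.floor_le hZ0
        have h8 : 0 ≤ C * Z ^ ε := by
          have : 0 ≤ C := by linarith
          positivity
        exact mul_le_mul_of_nonneg_right h7 h8
    _ = C * Z ^ (1 + ε) := by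
        rw [Real.rpow_add (by linarith), Real.rpow_one]
        ring

end Pool.EXC
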